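import Pool.Agent.H817R5.EP.Stubs

set_option autoImplicit false

open Finset

namespace Pool.Agent.H79R5.EP

open Pool.Agent.H817R5.EP

lemma ind_nonneg (a : ℕ → ℕ) (T : Finset ℕ) (n : ℕ) : 0 ≤ ind a T n := by
  unfold ind; split_ifs <;> norm_num

lemma ind_le (a : ℕ → ℕ) {T S : Finset ℕ} (h : S ⊆ T) (n : ℕ) : ind a T n ≤ ind a S n := by
  unfold ind
  by_cases h1 : ∀ q ∈ T, n % q ^ 2 < a q
  · rw [if_pos h1, if_pos fun q hq => h1 q (h hq)]
  · rw [if_neg h1]
    split_ifs <;> norm_num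

lemma exists_sub (G : ℕ) (hG : 1 ≤ G) (g : Finset ℕ) : (∀ q ∈ g, q ≤ G) → G < ∏ q ∈ g, q →
    ∃ g1 ⊆ g, G < ∏ q ∈ g1, q ∧ ∏ q ∈ g1, q ≤ G ^ 2 := by
  classical
  induction g using Finset.induction_on with
  | empty => intro _ h; simp at h; omega
  | insert q g hq ih =>
    intro h1 h2
    by_cases h3 : G < ∏ q ∈ g, q
    · obtain ⟨g1, hg1, h4⟩ := ih (fun x hx => h1 x (mem_insert_of_mem hx)) h3
      exact ⟨g1, hg1.trans (subset_insert _ _), h4⟩
    · push Not at h3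
      refine ⟨insert q g, Subset.refl _, h2, ?_⟩
      rw [prod_insert hq, pow_two]
      exact Nat.mul_le_mul (h1 q (mem_insert_self _ _)) h3

lemma sum_shift (F : ℕ → ℝ) (y H : ℕ) :
    ∑ r ∈ range H, F (y + r) = ∑ x ∈ Ico y (y + H), F x := by
  rw [Finset.sum_Ico_eq_sum_range]
  simp

theorem nmax (hcnt : St_CNT) : St_NMAX := by
  intro a P g z G H y hP hg hG hprod
  have hpow : (1 : ℝ) ≤ 2 ^ g.card := one_le_pow₀ (by norm_num)
  have hG' : (1 : ℝ) ≤ G := by exact_mod_cast hG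
  have hH0 : (0 : ℝ) ≤ H := Nat.cast_nonneg H
  have hz0 : (0 : ℝ) ≤ z := Nat.cast_nonneg z
  by_cases hbig : ∃ q ∈ g, G < q
  · obtain ⟨q, hq, hqG⟩ := hbig
    obtain ⟨hqp, hqz, ha1, ha2⟩ := hP q (hg hq)
    have h1 : ∑ r ∈ range H, ind a g (y + r) ≤ ∑ r ∈ range H, ind a {q} (y + r) :=
      sum_le_sum fun r _ => ind_le a (singleton_subset_iff.2 hq) _
    have h2 := hcnt a P {q} z y H hP (singleton_subset_iff.2 (hg hq))
    rw [← sum_shift (fun x => ind a {q} x)] at h2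
    have h3 := (abs_le.1 h2).2
    unfold den at h3
    simp only [prod_singleton] at h3
    have hqG' : (G : ℝ) < q := by exact_mod_cast hqG
    have hq0 : (0 : ℝ) < q := by linarith
    have hqz' : (q : ℝ) ≤ z := by exact_mod_cast hqz
    have ha2' : (a q : ℝ) ≤ 2 * q := by exact_mod_cast ha2
    have h4 : (H : ℝ) * ((a q : ℝ) / (q : ℝ) ^ 2) ≤ 2 * H / G := by
      have : (a q : ℝ) / (q : ℝ) ^ 2 ≤ 2 / q := by
        rw [div_le_div_iff₀ (by positivity) hq0]
        nlinarith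
      have h5 : (2 : ℝ) / q ≤ 2 / G := by
        apply div_le_div_of_nonneg_left (by norm_num) (by linarith) hqG'.le
      calc (H : ℝ) * ((a q : ℝ) / (q : ℝ) ^ 2) ≤ H * (2 / G) :=
            mul_le_mul_of_nonneg_left (this.trans h5) hH0
        _ = 2 * H / G := by ring
    have hb : (0 : ℝ) ≤ 2 * (H : ℝ) / G + 2 * z + (G : ℝ) ^ 2 := by positivity
    have h6 : 2 * (H : ℝ) / G + 2 * z + (G : ℝ) ^ 2 ≤
        2 ^ g.card * (2 * (H : ℝ) / G + 2 * z + (G : ℝ) ^ 2) := by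
      nlinarith
    nlinarith [sq_nonneg (G : ℝ)]
  · push Not at hbig
    obtain ⟨g1, hg1, hlt, hle⟩ := exists_sub G hG g hbig hprod
    have h1 : ∑ r ∈ range H, ind a g (y + r) ≤ ∑ r ∈ range H, ind a g1 (y + r) :=
      sum_le_sum fun r _ => ind_le a hg1 _
    have h2 := hcnt a P g1 z y H hP (hg1.trans hg)
    rw [← sum_shift (fun x => ind a g1 x)] at h2
    have h3 := (abs_le.1 h2).2
    have hq0 : ∀ q ∈ g1, (0 : ℝ) < q := fun q hq => by
      exact_mod_cast (hP q (hg (hg1 hq))).1.pos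
    have ha : ∀ q ∈ g1, (a q : ℝ) ≤ 2 * q := fun q hq => by
      exact_mod_cast (hP q (hg (hg1 hq))).2.2.2
    have hcard : (2 : ℝ) ^ g1.card ≤ 2 ^ g.card :=
      pow_le_pow_right₀ (by norm_num) (card_le_card hg1)
    have hprod1 : ∏ q ∈ g1, (a q : ℝ) ≤ 2 ^ g1.card * ∏ q ∈ g1, (q : ℝ) := by
      rw [← prod_const, ← prod_mul_distrib]
      exact prod_le_prod (fun q _ => Nat.cast_nonneg _) fun q hq => ha q hq
    have hle' : ∏ q ∈ g1, (q : ℝ) ≤ (G : ℝ) ^ 2 := by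
      have := (Nat.cast_le (α := ℝ)).2 hle
      rwa [Nat.cast_prod, Nat.cast_pow] at this
    have hlt' : (G : ℝ) < ∏ q ∈ g1, (q : ℝ) := by
      have := (Nat.cast_lt (α := ℝ)).2 hlt
      rwa [Nat.cast_prod] at this
    have hden : den a g1 ≤ 2 ^ g1.card / G := by
      unfold den
      have : ∏ q ∈ g1, ((a q : ℝ) / (q : ℝ) ^ 2) ≤ ∏ q ∈ g1, (2 * (1 / (q : ℝ))) := by
        refine prod_le_prod (fun q _ => by positivity) fun q hq => ?_
        have h0 := hq0 q hq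
        have h5 := ha q hq
        rw [mul_one_div, div_le_div_iff₀ (by positivity) h0]
        nlinarith
      refine this.trans ?_
      rw [prod_mul_distrib, prod_const]
      have h6 : ∏ q ∈ g1, (1 / (q : ℝ)) = 1 / ∏ q ∈ g1, (q : ℝ) := by
        simp [prod_inv_distrib]
      rw [h6, mul_one_div]
      exact div_le_div_of_nonneg_left (by positivity) (by linarith) hlt'.le
    have h7 : (H : ℝ) * den a g1 ≤ 2 ^ g1.card * (H / G) := by
      calc (H : ℝ) * den a g1 ≤ H * (2 ^ g1.card / G) := mul_le_mul_of_nonneg_left hden hH0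
        _ = 2 ^ g1.card * (H / G) := by ring
    have h8 : ∏ q ∈ g1, (a q : ℝ) ≤ 2 ^ g1.card * (G : ℝ) ^ 2 :=
      hprod1.trans (mul_le_mul_of_nonneg_left hle' (by positivity))
    have h9 : (0 : ℝ) ≤ (H : ℝ) / G := by positivity
    have h10 : ∑ r ∈ range H, ind a g (y + r) ≤ 2 ^ g1.card * (H / G + (G : ℝ) ^ 2) := by
      linarith
    refine h10.trans ?_
    have h11 : (0 : ℝ) ≤ H / G + (G : ℝ) ^ 2 := by positivity
    calc (2 : ℝ) ^ g1.card * (H / G + (G : ℝ) ^ 2) ≤ 2 ^ g.card * (H / G + (G : ℝ) ^ 2) :=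
          mul_le_mul_of_nonneg_right hcard h11
      _ ≤ 2 ^ g.card * (2 * (H : ℝ) / G + 2 * z + (G : ℝ) ^ 2) := by
        apply mul_le_mul_of_nonneg_left _ (by positivity)
        have : 2 * (H : ℝ) / G = H / G + H / G := by ring
        linarith

end Pool.Agent.H79R5.EP
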